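import Mathlib
import Pool.Agent.H744R2.KZ.Props

/-!
# Fibre of a derivation that commutes with the centre (task F_fib)
-/

open scoped ComplexOrder InnerProductSpace ComplexConjugate Topology
open Finset Filter

noncomputable section

namespace H744R2.KZ

open H759R2.Kad

universe u

namespace FibAux

variable {H : Type u} [NormedAddCommGroup H] [InnerProductSpace ℂ H]
variable {n : ℕ}

/-- matrix unit -/
def eu (i j : Fin n) : HH (Fin n) H →L[ℂ] HH (Fin n) H :=
  opMat fun k l => if k = i ∧ l = j then 1 else 0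

theorem HHsum {ι : Type*} (s : Finset ι) (f : ι → HH (Fin n) H) (a : Fin n) :
    (∑ i ∈ s, f i) a = ∑ i ∈ s, f i a := by
  rw [WithLp.ofLp_sum, Finset.sum_apply]

theorem eu_apply (i j : Fin n) (v : HH (Fin n) H) (k : Fin n) :
    eu i j v k = if k = i then v j else 0 := by
  rw [eu, opMat_apply]
  by_cases h : k = i
  · rw [Finset.sum_eq_single j]
    · simp [h]
    · intro l _ hl
      simp [hl]
    · simp
  · simp [h]

theorem eu_mul (i j k l : Fin n) :
    (eu i j : HH (Fin n) H →L[ℂ] HH (Fin n) H) * eu k l = if j = k then eu i l else 0 := by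
  ext v a
  rw [mul_apply_eq_comp, eu_apply, eu_apply]
  by_cases h : j = k
  · simp [h, eu_apply]
  · simp [h]

theorem eu_sum : ∑ i : Fin n, (eu i i : HH (Fin n) H →L[ℂ] HH (Fin n) H) = 1 := by
  ext v a
  rw [_root_.sum_apply, HHsum]
  simp [eu_apply]

theorem eu_dg (i j : Fin n) (T : H →L[ℂ] H) : eu i j * dg n T = dg n T * eu i j := by
  ext v a
  rw [mul_apply_eq_comp, mul_apply_eq_comp, eu_apply, dg_apply, dg_apply,
    eu_apply]
  by_cases h : a = i
  · simp [h]
  · simp [h]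

theorem opMat_eq (T : Fin n → Fin n → (H →L[ℂ] H)) :
    opMat T = ∑ i, ∑ j, eu i j * dg n (T i j) := by
  ext v a
  rw [opMat_apply, _root_.sum_apply, HHsum]
  symm
  rw [Finset.sum_eq_single a]
  · rw [_root_.sum_apply, HHsum]
    refine Finset.sum_congr rfl fun j _ => ?_
    rw [mul_apply_eq_comp, eu_apply, dg_apply]
    simp
  · intro i _ hi
    rw [_root_.sum_apply, HHsum]
    refine Finset.sum_eq_zero fun j _ => ?_
    rw [mul_apply_eq_comp, eu_apply]
    simp [Ne.symm hi]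
  · simp

theorem dg_mul (S T : H →L[ℂ] H) : dg n (S * T) = dg n S * dg n T := by
  ext v a
  simp [dg_apply]

theorem dg_add (S T : H →L[ℂ] H) : dg n (S + T) = dg n S + dg n T := by
  ext v a
  simp [dg_apply]

theorem dg_smul (c : ℂ) (S : H →L[ℂ] H) : dg n (c • S) = c • dg n S := by
  ext v a
  simp [dg_apply]

theorem dg_one : dg n (1 : H →L[ℂ] H) = 1 := by
  ext v a
  simp [dg_apply]

theorem dg_zero : dg n (0 : H →L[ℂ] H) = 0 := by
  ext v a
  simp [dg_apply]

theorem dg_norm (T : H →L[ℂ] H) : ‖dg n T‖ ≤ ‖T‖ := by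
  refine ContinuousLinearMap.opNorm_le_bound _ (norm_nonneg _) fun v => ?_
  rw [← sq_le_sq₀ (norm_nonneg _) (by positivity), mul_pow, PiLp.norm_sq_eq_of_L2,
    PiLp.norm_sq_eq_of_L2, Finset.mul_sum]
  refine Finset.sum_le_sum fun i _ => ?_
  rw [dg_apply, ← mul_pow]
  exact pow_le_pow_left₀ (norm_nonneg _) (T.le_opNorm _) 2

variable [CompleteSpace H]

theorem eu_star (i j : Fin n) : star (eu i j : HH (Fin n) H →L[ℂ] HH (Fin n) H) = eu j i := by
  rw [eu, opMat_star, eu]
  congr 1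
  funext k l
  by_cases h : l = i ∧ k = j
  · rw [if_pos h, if_pos ⟨h.2, h.1⟩, star_one]
  · rw [if_neg h, if_neg (fun h' => h ⟨h'.2, h'.1⟩), star_zero]

theorem dg_star (T : H →L[ℂ] H) : star (dg n T) = dg n (star T) := by
  rw [dg, opMat_star, dg]
  congr 1
  funext k l
  by_cases h : l = k
  · simp [h]
  · simp [h, Ne.symm h]

/-- the norm estimate for operator matrices composed with a system of matrix units -/
theorem norm_sum_le (hn : 0 < n) (E : Fin n → Fin n → (H →L[ℂ] H))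
    (hmul : ∀ i j k l, E i j * E k l = if j = k then E i l else 0)
    (hstar : ∀ i j, star (E i j) = E j i) (hsum : ∑ i, E i i = 1)
    (T : Fin n → Fin n → (H →L[ℂ] H)) (hc : ∀ i j k l, E i j * T k l = T k l * E i j) :
    ‖∑ i, ∑ j, E i j * T i j‖ ≤ ‖opMat T‖ := by
  set i0 : Fin n := ⟨0, hn⟩
  -- the isometry
  let W : H → HH (Fin n) H := fun x => WithLp.toLp 2 (fun i => E i0 i x)
  have hW : ∀ x i, W x i = E i0 i x := fun x i => rfl
  have hWn : ∀ x, ‖W x‖ = ‖x‖ := by
    intro x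
    rw [← sq_eq_sq₀ (norm_nonneg _) (norm_nonneg _), PiLp.norm_sq_eq_of_L2]
    have h1 : ∀ i, ((‖W x i‖ ^ 2 : ℝ) : ℂ) = ⟪x, E i i x⟫_ℂ := by
      intro i
      rw [hW, Complex.ofReal_pow]
      have h0 : ((‖E i0 i x‖ : ℂ)) ^ 2 = ⟪E i0 i x, E i0 i x⟫_ℂ :=
        (inner_self_eq_norm_sq_to_K (𝕜 := ℂ) (E i0 i x)).symm
      rw [h0]
      have : ⟪E i0 i x, E i0 i x⟫_ℂ = ⟪x, (star (E i0 i)) (E i0 i x)⟫_ℂ := by
        rw [ContinuousLinearMap.star_eq_adjoint, ContinuousLinearMap.adjoint_inner_right]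
      rw [this, hstar, ← mul_apply_eq_comp, hmul, if_pos rfl]
    have h2 : ((∑ i, ‖W x i‖ ^ 2 : ℝ) : ℂ) = ((‖x‖ ^ 2 : ℝ) : ℂ) := by
      rw [Complex.ofReal_sum, Finset.sum_congr rfl fun i _ => h1 i, ← inner_sum]
      have : ∑ i, E i i x = x := by
        rw [← _root_.sum_apply, hsum, one_apply_eq_self]
      rw [this, inner_self_eq_norm_sq_to_K]
      norm_cast
    exact_mod_cast h2
  have key : ∀ x y, ⟪y, (∑ i, ∑ j, E i j * T i j) x⟫_ℂ = ⟪W y, opMat T (W x)⟫_ℂ := by
    intro x y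
    rw [PiLp.inner_apply, _root_.sum_apply, inner_sum]
    refine Finset.sum_congr rfl fun i _ => ?_
    rw [opMat_apply, inner_sum, _root_.sum_apply, inner_sum]
    refine Finset.sum_congr rfl fun j _ => ?_
    rw [hW, hW]
    have : ⟪E i0 i y, T i j (E i0 j x)⟫_ℂ = ⟪y, (star (E i0 i)) (T i j (E i0 j x))⟫_ℂ := by
      rw [ContinuousLinearMap.star_eq_adjoint, ContinuousLinearMap.adjoint_inner_right]
    rw [this, hstar, ← mul_apply_eq_comp, ← mul_apply_eq_comp, mul_assoc,
      ← hc, ← mul_assoc, hmul, if_pos rfl]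
  refine ContinuousLinearMap.opNorm_le_bound _ (norm_nonneg _) fun x => ?_
  set y := (∑ i, ∑ j, E i j * T i j) x with hy
  by_cases h0 : y = 0
  · rw [h0, norm_zero]; positivity
  have h1 : ‖y‖ * ‖y‖ ≤ (‖opMat T‖ * ‖x‖) * ‖y‖ := by
    have h2 : ‖⟪y, y⟫_ℂ‖ = ‖y‖ * ‖y‖ := by
      rw [inner_self_eq_norm_sq_to_K]
      simp [sq]
    rw [← h2]
    conv_lhs => rw [hy]
    rw [← hy, key x y]
    calc ‖⟪W y, opMat T (W x)⟫_ℂ‖ ≤ ‖W y‖ * ‖opMat T (W x)‖ := norm_inner_le_norm _ _
      _ ≤ ‖W y‖ * (‖opMat T‖ * ‖W x‖) := by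
          gcongr
          exact ContinuousLinearMap.le_opNorm _ _
      _ = (‖opMat T‖ * ‖x‖) * ‖y‖ := by rw [hWn, hWn]; ring
  exact le_of_mul_le_mul_right h1 (norm_pos_iff.mpr h0)

theorem opMat_mul_dg (T : Fin n → Fin n → (H →L[ℂ] H)) (z : H →L[ℂ] H) :
    opMat T * dg n z = opMat fun i j => T i j * z := by
  ext v a
  rw [mul_apply_eq_comp, opMat_apply, opMat_apply]
  simp [dg_apply]

theorem dg_mul_opMat (T : Fin n → Fin n → (H →L[ℂ] H)) (z : H →L[ℂ] H) :
    dg n z * opMat T = opMat fun i j => z * T i j := by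
  ext v a
  rw [mul_apply_eq_comp, dg_apply, opMat_apply, opMat_apply]
  simp

theorem dg_leib {M : VonNeumannAlgebra H} {D : M.toStarSubalgebra →ₗ[ℂ] (H →L[ℂ] H)} {K : ℝ}
    (hD : IsVDer M D K) (a c : M.toStarSubalgebra) :
    dg n (D (a * c)) = dg n (a : H →L[ℂ] H) * dg n (D c) + dg n (D a) * dg n (c : H →L[ℂ] H) := by
  have h : D (a * c) = (a : H →L[ℂ] H) * D c + D a * (c : H →L[ℂ] H) := hD.leib a c
  rw [h, dg_add, dg_mul, dg_mul]

end FibAux

open FibAux

theorem prove_F_fib (h1 : F_rep.{u}) : F_fib.{u} := by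
  intro H _ _ _ M D K hD hcomm z hz n X hb
  classical
  -- the set of diagonal central elements and its commutant
  set S : Set (HH (Fin n) H →L[ℂ] HH (Fin n) H) := {T | ∃ c, IsCen M c ∧ T = dg n c} with hS
  have hstarCen : ∀ c, IsCen M c → IsCen M (star c) := by
    intro c hc
    refine ⟨star_mem hc.1, fun a ha => ?_⟩
    have := hc.2 (star a) (star_mem ha)
    have h2 := congrArg star this
    rw [star_mul, star_mul, star_star] at h2
    exact h2.symm
  set E : StarSubalgebra ℂ (HH (Fin n) H →L[ℂ] HH (Fin n) H) :=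
    StarSubalgebra.centralizer ℂ S with hE
  have hmem : ∀ T, T ∈ E ↔ ∀ c, IsCen M c → dg n c * T = T * dg n c := by
    intro T
    rw [hE, StarSubalgebra.mem_centralizer_iff]
    constructor
    · intro h c hc
      exact (h _ ⟨c, hc, rfl⟩).1
    · rintro h _ ⟨c, hc, rfl⟩
      refine ⟨h c hc, ?_⟩
      rw [dg_star]
      exact h _ (hstarCen c hc)
  have hclosed : IsClosed (E : Set (HH (Fin n) H →L[ℂ] HH (Fin n) H)) := by
    rw [hE, StarSubalgebra.coe_centralizer]
    exact Set.isClosed_centralizer _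
  -- elements of E
  have hdgM : ∀ a, a ∈ M → dg n a ∈ E := by
    intro a ha
    rw [hmem]
    intro c hc
    rw [← dg_mul, ← dg_mul, hc.2 a ha]
  have hdgD : ∀ a : M.toStarSubalgebra, dg n (D a) ∈ E := by
    intro a
    rw [hmem]
    intro c hc
    rw [← dg_mul, ← dg_mul, hcomm c hc a]
  have heu : ∀ i j, (eu i j : HH (Fin n) H →L[ℂ] HH (Fin n) H) ∈ E := by
    intro i j
    rw [hmem]
    intro c _
    rw [eu_dg]
  set b := amp D (Fin n) X * dg n z with hbdef
  have hamp : amp D (Fin n) X = opMat fun i j => D (X i j) := rfl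
  have hbE : b ∈ E := by
    rw [hmem]
    intro c hc
    rw [hbdef, hamp, opMat_mul_dg, dg_mul_opMat, opMat_mul_dg]
    congr 1
    funext i j
    rw [← mul_assoc, hcomm c hc, mul_assoc, mul_assoc, hc.2 z hz.2.1]
  letI instE : CStarAlgebra E := StarSubalgebra.cstarAlgebra E (h_closed := hclosed)
  letI instO : PartialOrder E := CStarAlgebra.spectralOrder E
  haveI instR : StarOrderedRing E := CStarAlgebra.spectralOrderedRing E
  have hb0 : (⟨b, hbE⟩ : E) ≠ 0 := by
    intro h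
    exact hb (congrArg Subtype.val h)
  haveI : Nontrivial E := ⟨⟨⟨b, hbE⟩, 0, hb0⟩⟩
  obtain ⟨L, iL1, iL2, iL3, ρ, hρn, hρc⟩ := h1 E (⟨b, hbE⟩ : E)
  have hle : ∀ x : E, ‖ρ x‖ ≤ ‖x‖ := fun x => NonUnitalStarAlgHom.norm_apply_le ρ x
  have hnorm : ∀ x : E, ‖x‖ = ‖(x : HH (Fin n) H →L[ℂ] HH (Fin n) H)‖ := fun x => rfl
  let π : M.toStarSubalgebra →⋆ₐ[ℂ] (L →L[ℂ] L) :=
    { toFun := fun a => ρ ⟨dg n a, hdgM a a.2⟩
      map_one' := by
        have : (⟨dg n ((1 : M.toStarSubalgebra) : H →L[ℂ] H), hdgM _ (1 : M.toStarSubalgebra).2⟩ : E)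
            = 1 := Subtype.ext dg_one
        rw [this, map_one]
      map_mul' := fun a c => by
        rw [← map_mul]
        congr 1
        exact Subtype.ext (dg_mul _ _)
      map_zero' := by
        have : (⟨dg n ((0 : M.toStarSubalgebra) : H →L[ℂ] H), hdgM _ (0 : M.toStarSubalgebra).2⟩ : E)
            = 0 := Subtype.ext dg_zero
        rw [this, map_zero]
      map_add' := fun a c => by
        rw [← map_add]
        congr 1
        exact Subtype.ext (dg_add _ _)
      commutes' := fun r => by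
        have : (⟨dg n ((algebraMap ℂ M.toStarSubalgebra r : M.toStarSubalgebra) : H →L[ℂ] H),
            hdgM _ (algebraMap ℂ M.toStarSubalgebra r).2⟩ : E) = algebraMap ℂ E r := by
          apply Subtype.ext
          change dg n (algebraMap ℂ (H →L[ℂ] H) r) = algebraMap ℂ _ r
          rw [Algebra.algebraMap_eq_smul_one, Algebra.algebraMap_eq_smul_one, dg_smul, dg_one]
        rw [this, AlgHomClass.commutes]
      map_star' := fun a => by
        rw [← map_star]
        congr 1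
        exact Subtype.ext (dg_star _).symm }
  let D' : M.toStarSubalgebra →ₗ[ℂ] (L →L[ℂ] L) :=
    { toFun := fun a => ρ ⟨dg n (D a), hdgD a⟩
      map_add' := fun a c => by
        rw [← map_add]
        congr 1
        apply Subtype.ext
        change dg n (D (a + c)) = dg n (D a) + dg n (D c)
        rw [map_add, dg_add]
      map_smul' := fun r a => by
        rw [RingHom.id_apply, ← map_smul]
        congr 1
        apply Subtype.ext
        change dg n (D (r • a)) = r • dg n (D a)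
        rw [map_smul, dg_smul] }
  have hπ : ∀ a (ha : a ∈ M), π ⟨a, ha⟩ = ρ ⟨dg n a, hdgM a ha⟩ := fun a ha => rfl
  have hD' : ∀ a, D' a = ρ ⟨dg n (D a), hdgD a⟩ := fun a => rfl
  have hcenE : ∀ c (hc : IsCen M c), ∀ x : E, (⟨dg n c, hdgM c hc.1⟩ : E) * x =
      x * ⟨dg n c, hdgM c hc.1⟩ := by
    intro c hc x
    exact Subtype.ext ((hmem _).1 x.2 c hc)
  have hz1 : ρ ⟨dg n z, hdgM z hz.2.1⟩ = 1 := by
    obtain ⟨s, hs⟩ := hρc ⟨dg n z, hdgM z hz.2.1⟩ (hcenE z hz.2)
    rw [hs]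
    have hidem : ρ ⟨dg n z, hdgM z hz.2.1⟩ * ρ ⟨dg n z, hdgM z hz.2.1⟩ =
        ρ ⟨dg n z, hdgM z hz.2.1⟩ := by
      rw [← map_mul]
      congr 1
      apply Subtype.ext
      change dg n z * dg n z = dg n z
      rw [← dg_mul, hz.1.2]
    have hbz : ρ ⟨b, hbE⟩ * ρ ⟨dg n z, hdgM z hz.2.1⟩ = ρ ⟨b, hbE⟩ := by
      rw [← map_mul]
      congr 1
      apply Subtype.ext
      change b * dg n z = b
      rw [hbdef, mul_assoc, ← dg_mul, hz.1.2]
    have hρb : ρ ⟨b, hbE⟩ ≠ 0 := by
      intro h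
      rw [h, norm_zero] at hρn
      exact hb0 (norm_eq_zero.mp hρn.symm)
    rw [hs] at hidem hbz
    have h2 : (s * s - s) • (1 : L →L[ℂ] L) = 0 := by
      rw [sub_smul, sub_eq_zero]
      rw [smul_mul_smul_comm, one_mul] at hidem
      exact hidem
    rcases smul_eq_zero.mp h2 with h3 | h3
    · have h4 : s * (s - 1) = 0 := by linear_combination h3
      rcases mul_eq_zero.mp h4 with h5 | h5
      · exfalso
        rw [h5, zero_smul, mul_zero] at hbz
        exact hρb hbz.symm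
      · rw [sub_eq_zero.mp h5, one_smul]
    · rw [h3, smul_zero]
  have hleib : ∀ a c, D' (a * c) = π a * D' c + D' a * π c := by
    intro a c
    have hl : (⟨dg n (D (a * c)), hdgD _⟩ : E) = ⟨dg n a, hdgM a a.2⟩ * ⟨dg n (D c), hdgD c⟩ +
        ⟨dg n (D a), hdgD a⟩ * ⟨dg n c, hdgM c c.2⟩ := Subtype.ext (dg_leib hD a c)
    have hl2 : ρ ⟨dg n (D (a * c)), hdgD _⟩ = ρ ⟨dg n a, hdgM a a.2⟩ * ρ ⟨dg n (D c), hdgD c⟩ +
        ρ ⟨dg n (D a), hdgD a⟩ * ρ ⟨dg n c, hdgM c c.2⟩ := by
      rw [hl, map_add, map_mul, map_mul]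
    exact hl2
  refine ⟨L, iL1, iL2, iL3, π, D', ⟨?_, hD.nonneg, ?_⟩, ?_, ?_, ?_⟩
  · intro a c
    exact hleib a c
  · intro a
    rw [hD']
    refine (hle _).trans ?_
    rw [hnorm]
    exact (dg_norm _).trans (hD.bound a)
  · intro c hc
    obtain ⟨s, hs⟩ := hρc ⟨dg n c, hdgM c hc.1⟩ (hcenE c hc)
    exact ⟨s, hs⟩
  · exact hz1
  · rcases Nat.eq_zero_or_pos n with hn | hn
    · exfalso
      subst hn
      apply hb
      ext v i
      exact i.elim0
    -- matrix units in the representation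
    set EE : Fin n → Fin n → (L →L[ℂ] L) := fun i j => ρ ⟨eu i j, heu i j⟩ with hEE
    have e1 : ∀ i j k l, EE i j * EE k l = if j = k then EE i l else 0 := by
      intro i j k l
      rw [hEE]
      simp only
      rw [← map_mul]
      by_cases h : j = k
      · rw [if_pos h]
        congr 1
        apply Subtype.ext
        change eu i j * eu k l = eu i l
        rw [eu_mul, if_pos h]
      · rw [if_neg h]
        have : (⟨eu i j, heu i j⟩ : E) * ⟨eu k l, heu k l⟩ = 0 := by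
          apply Subtype.ext
          change eu i j * eu k l = 0
          rw [eu_mul, if_neg h]
        rw [this, map_zero]
    have e2 : ∀ i j, star (EE i j) = EE j i := by
      intro i j
      rw [hEE]
      simp only
      rw [← map_star]
      congr 1
      apply Subtype.ext
      change star (eu i j) = eu j i
      rw [eu_star]
    have e3 : ∑ i, EE i i = 1 := by
      rw [hEE]
      simp only
      rw [← map_sum]
      have : (∑ i, (⟨eu i i, heu i i⟩ : E)) = 1 := by
        apply Subtype.ext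
        rw [AddSubmonoidClass.coe_finsetSum]
        exact eu_sum
      rw [this, map_one]
    have e4 : ∀ i j k l, EE i j * D' (X k l) = D' (X k l) * EE i j := by
      intro i j k l
      rw [hEE, hD']
      simp only
      rw [← map_mul, ← map_mul]
      congr 1
      apply Subtype.ext
      change eu i j * dg n (D (X k l)) = dg n (D (X k l)) * eu i j
      rw [eu_dg]
    have e5 : ρ ⟨b, hbE⟩ = ∑ i, ∑ j, EE i j * D' (X i j) := by
      have hb2 : (⟨b, hbE⟩ : E) = (∑ i, ∑ j, (⟨eu i j, heu i j⟩ : E) * ⟨dg n (D (X i j)), hdgD _⟩) *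
          ⟨dg n z, hdgM z hz.2.1⟩ := by
        apply Subtype.ext
        change b = (∑ i, ∑ j, (⟨eu i j, heu i j⟩ : E) * ⟨dg n (D (X i j)), hdgD _⟩ : E).1 * dg n z
        rw [AddSubmonoidClass.coe_finsetSum]
        simp only [AddSubmonoidClass.coe_finsetSum]
        rw [hbdef, hamp, opMat_eq]
        rfl
      rw [hb2, map_mul, hz1, mul_one, map_sum]
      refine Finset.sum_congr rfl fun i _ => ?_
      rw [map_sum]
      refine Finset.sum_congr rfl fun j _ => ?_
      rw [map_mul]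
      rfl
    calc ‖amp D (Fin n) X * dg n z‖ = ‖ρ ⟨b, hbE⟩‖ := hρn.symm
      _ = ‖∑ i, ∑ j, EE i j * D' (X i j)‖ := by rw [e5]
      _ ≤ ‖opMat fun i j => D' (X i j)‖ := norm_sum_le hn EE e1 e2 e3 _ e4
      _ = ‖amp D' (Fin n) X‖ := rfl

end H744R2.KZ
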